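import Pool.Agent.Helper97.SZ.Goals

/-! Packet SZ-SW: the infinite swindle -/

set_option autoImplicit false

open Set Filter Topology Metric
open scoped ContDiff

namespace Pool.Agent.Helper48.SZ

open Pool.Agent.Helper91.SY Pool.Agent.Helper97.SZ

section
variable {E : Type} [NormedAddCommGroup E] [NormedSpace ℝ E]

theorem fd_slab (Φ F : E → E) (ℓ : E →L[ℝ] ℝ) (t S : ℝ) (c x : E) (h : |ℓ x - t| < S)
    (hΦ : ∀ y, |ℓ y - t| ≤ S → Φ y = F (y - c) + c) :
    fderiv ℝ Φ x = fderiv ℝ F (x - c) := by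
  have hop : IsOpen {y : E | |ℓ y - t| < S} := isOpen_lt (by fun_prop) continuous_const
  have h1 : Φ =ᶠ[𝓝 x] fun y => F (y - c) + c := by
    filter_upwards [hop.mem_nhds h] with y hy
    exact hΦ y hy.le
  rw [h1.fderiv_eq, fderiv_add_const, fderiv_comp_sub]

theorem fd_id (Φ : E → E) (x : E) (h : ∀ᶠ y in 𝓝 x, Φ y = y) :
    fderiv ℝ Φ x = ContinuousLinearMap.id ℝ E := by
  have h1 : Φ =ᶠ[𝓝 x] id := h
  rw [h1.fderiv_eq, fderiv_id]

theorem near (ℓ : E →L[ℝ] ℝ) (x : E) (t r : ℝ) (h : |ℓ x - t| < r) :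
    ∀ᶠ y in 𝓝 x, |ℓ y - t| < r := by
  have hop : IsOpen {y : E | |ℓ y - t| < r} := isOpen_lt (by fun_prop) continuous_const
  exact hop.mem_nhds h

theorem near_lt (ℓ : E →L[ℝ] ℝ) (x : E) (t : ℝ) (h : ℓ x < t) :
    ∀ᶠ y in 𝓝 x, ℓ y < t := by
  have hop : IsOpen {y : E | ℓ y < t} := isOpen_lt (by fun_prop) continuous_const
  exact hop.mem_nhds h

/-- at the common boundary of two slabs the periodic map is the identity -/
theorem id_bdry (Φ F : E → E) (ℓ : E →L[ℝ] ℝ) (e : E) (S : ℝ) (hS : 2 ≤ S) (he : ℓ e = 1)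
    (hF : ∀ x, S - 1 ≤ |ℓ x - S / 2| → F x = x)
    (hΦ : ∀ (k : ℕ) (y : E), |ℓ y - (2 * k * S + S / 2)| ≤ S →
      Φ y = F (y - (2 * k * S) • e) + (2 * k * S) • e)
    (k : ℕ) (x : E) (hx : ℓ x = 2 * k * S + 3 * S / 2) : ∀ᶠ y in 𝓝 x, Φ y = y := by
  have h1 : ∀ᶠ y in 𝓝 x, |ℓ y - (2 * k * S + 3 * S / 2)| < 1 := near ℓ x _ 1 (by
    rw [hx, sub_self, abs_zero]; norm_num)
  filter_upwards [h1] with y hy
  rw [abs_lt] at hy
  by_cases hc : ℓ y ≤ 2 * k * S + 3 * S / 2
  · rw [hΦ k y (by rw [abs_le]; constructor <;> linarith), hF]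
    · abel
    · rw [map_sub, map_smul, he, le_abs]
      left
      simp only [smul_eq_mul, mul_one]
      linarith
  · push Not at hc
    have hk : ((k + 1 : ℕ) : ℝ) = (k : ℝ) + 1 := by push_cast; ring
    rw [hΦ (k + 1) y (by rw [abs_le, hk]; constructor <;> linarith), hF]
    · abel
    · rw [map_sub, map_smul, he, le_abs, hk]
      right
      simp only [smul_eq_mul, mul_one]
      linarith

theorem far_l (B : E → E →L[ℝ] E →L[ℝ] ℝ) (B0 : E →L[ℝ] E →L[ℝ] ℝ) (ρ : ℝ) (ℓ : E →L[ℝ] ℝ)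
    (hℓ : ∀ x, |ℓ x| ≤ ‖x‖) (h : Far ρ B B0) (x : E) (hx : ρ ≤ |ℓ x|) : B x = B0 :=
  h x (hx.trans (hℓ x))

end

theorem sw (hPE : StmtPER) (hIS : StmtIS) : StmtSW := by
  intro E _ _ _ B Z B0 ρ S e ℓ F₁ F₂ hρ hS hB hZ he hℓ hF₁ hF₂ hid₁ hid₂ hP₁ hP₂
  have hS2 : 2 ≤ S := by linarith
  obtain ⟨Φ₁, hsm₁, hlo₁, hsl₁⟩ := hPE E S e ℓ F₁ hS2 he hF₁ hid₁
  obtain ⟨Φ₂, hsm₂, hlo₂, hsl₂⟩ := hPE E S e ℓ F₂ hS2 he hF₂ hid₂
  obtain ⟨hrefl, hsymm, htrans, hmono, -⟩ := hIS E
  have hBf : ∀ x, S / 2 - 1 ≤ |ℓ x| → B x = B0 := fun x hx =>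
    far_l B B0 ρ ℓ hℓ hB x (by linarith)
  have hZf : ∀ x, S / 2 - 1 ≤ |ℓ x| → Z x = B0 := fun x hx =>
    far_l Z B0 ρ ℓ hℓ hZ x (by linarith)
  obtain ⟨W, hW⟩ : ∃ W : E → E →L[ℝ] E →L[ℝ] ℝ, W = pb (fun x => Φ₂ x) (fun _ => B0) := ⟨_, rfl⟩
  have hWa : ∀ x u v, W x u v = B0 (fderiv ℝ (fun y => Φ₂ y) x u) (fderiv ℝ (fun y => Φ₂ y) x v) := by
    intro x u v
    rw [hW, pb, ContinuousLinearMap.bilinearComp_apply]
  have hIW : Iso univ W (fun _ => B0) :=
    ⟨Φ₂, hsm₂, fun x hx => absurd (mem_univ x) hx, fun x u v => (hWa x u v).symm⟩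
  have hlsub : ∀ (x : E) (r : ℝ), ℓ (x - r • e) = ℓ x - r := by
    intro x r
    rw [map_sub, map_smul, he]
    simp
  -- values of W
  have hWid : ∀ x, (∀ᶠ y in 𝓝 x, (fun y => Φ₂ y) y = y) → W x = B0 := by
    intro x hx
    ext u v
    rw [hWa, fd_id _ _ hx]
    rfl
  have hWsl : ∀ (k : ℕ) (x : E), |ℓ x - (2 * k * S + S / 2)| < S →
      W x = B (x - (2 * k * S) • e) + (Z (x - (2 * k * S) • e - S • e) - B0) := by
    intro k x hx
    ext u v
    rw [hWa, fd_slab (fun y => Φ₂ y) (fun y => F₂ y) ℓ (2 * k * S + S / 2) S ((2 * k * S) • e) x hx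
      (hsl₂ k)]
    exact hP₂ _ _ _
  have hWbd : ∀ (k : ℕ) (x : E), ℓ x = 2 * k * S + 3 * S / 2 → W x = B0 := by
    intro k x hx
    exact hWid x (id_bdry (fun y => Φ₂ y) (fun y => F₂ y) ℓ e S hS2 he hid₂ hsl₂ k x hx)
  have hWlo : ∀ x, ℓ x ≤ -(S / 2) → W x = B0 := by
    intro x hx
    apply hWid
    filter_upwards [near_lt ℓ x (-(S / 2) + 1) (by linarith)] with y hy
    exact hlo₂ y hy.le
  have hV1 : ∀ (k : ℕ) (x : E), |ℓ x - 2 * k * S| ≤ S / 2 → W x = B (x - (2 * k * S) • e) := by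
    intro k x hx
    rw [abs_le] at hx
    rcases lt_or_eq_of_le hx.1 with h1 | h1
    · rw [hWsl k x (by rw [abs_lt]; constructor <;> linarith), hZf]
      · abel
      · rw [hlsub, hlsub, le_abs]
        right
        linarith
    · rw [hBf _ (by rw [hlsub, le_abs]; right; linarith)]
      rcases Nat.eq_zero_or_pos k with hk | hk
      · subst hk
        apply hWlo
        push_cast at h1
        linarith
      · obtain ⟨k', rfl⟩ : ∃ k', k = k' + 1 := ⟨k - 1, by omega⟩
        apply hWbd k'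
        push_cast at h1
        linarith
  have hV2 : ∀ (k : ℕ) (x : E), |ℓ x - (2 * k + 1) * S| ≤ S / 2 →
      W x = Z (x - (2 * k * S) • e - S • e) := by
    intro k x hx
    rw [abs_le] at hx
    rcases lt_or_eq_of_le hx.2 with h1 | h1
    · rw [hWsl k x (by rw [abs_lt]; constructor <;> linarith), hBf]
      · abel
      · rw [hlsub, le_abs]
        left
        linarith
    · rw [hZf _ (by rw [hlsub, hlsub, le_abs]; left; linarith)]
      apply hWbd k
      linarith
  -- the second map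
  obtain ⟨t, ht⟩ : ∃ t : E ≃ E, t = Equiv.addRight (S • e) := ⟨_, rfl⟩
  obtain ⟨Ψ, hΨ⟩ : ∃ Ψ : E ≃ E, Ψ = (t.symm.trans Φ₁).trans t := ⟨_, rfl⟩
  have hΨa : ∀ x, Ψ x = Φ₁ (x - S • e) + S • e := by
    intro x
    rw [hΨ, ht]
    simp [sub_eq_add_neg]
  have hΨs : ∀ x, Ψ.symm x = Φ₁.symm (x - S • e) + S • e := by
    intro x
    rw [hΨ, ht]
    simp [sub_eq_add_neg]
  have hsmΨ : Sm Ψ := by
    constructor
    · have : (fun x => Ψ x) = fun x => Φ₁ (x - S • e) + S • e := funext hΨa
      rw [this]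
      exact (hsm₁.1.comp (contDiff_id.sub contDiff_const)).add contDiff_const
    · have : (fun x => Ψ.symm x) = fun x => Φ₁.symm (x - S • e) + S • e := funext hΨs
      rw [this]
      exact (hsm₁.2.comp (contDiff_id.sub contDiff_const)).add contDiff_const
  have hΨfun : (fun x => Ψ x) = fun x => Φ₁ (x - S • e) + S • e := funext hΨa
  have hΨD : ∀ x, fderiv ℝ (fun y => Ψ y) x = fderiv ℝ (fun y => Φ₁ y) (x - S • e) := by
    intro x
    rw [hΨfun, fderiv_add_const]
    exact fderiv_comp_sub (f := fun y => Φ₁ y) (S • e)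
  have hid : ∀ x, (∀ᶠ y in 𝓝 x, Ψ y = y) → B x = W x → ∀ u v,
      B (Ψ x) (fderiv ℝ (fun y => Ψ y) x u) (fderiv ℝ (fun y => Ψ y) x v) = W x u v := by
    intro x hx hBW u v
    rw [fd_id _ _ hx, hx.self_of_nhds, hBW]
    rfl
  have hPΨ : Pull (fun x => Ψ x) W B := by
    intro x
    by_cases hA : ℓ x < S / 2 + 1
    · -- case A
      apply hid x
      · filter_upwards [near_lt ℓ x _ hA] with y hy
        rw [hΨa, hlo₁ (y - S • e) (by rw [hlsub]; linarith)]
        abel
      · by_cases h1 : ℓ x ≤ S / 2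
        · by_cases h2 : -(S / 2) ≤ ℓ x
          · rw [hV1 0 x (by rw [abs_le]; push_cast; constructor <;> linarith)]
            simp
          · push Not at h2
            rw [hWlo x h2.le, hBf x (by rw [le_abs]; right; linarith)]
        · push Not at h1
          rw [hBf x (by rw [le_abs]; left; linarith),
            hV2 0 x (by rw [abs_le]; push_cast; constructor <;> linarith), hZf]
          rw [hlsub, hlsub, le_abs]
          right
          push_cast
          linarith
    · push Not at hA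
      obtain ⟨k, hk⟩ : ∃ k : ℕ, k = ⌊(ℓ x - S / 2) / (2 * S)⌋₊ := ⟨_, rfl⟩
      have hpos : 0 ≤ (ℓ x - S / 2) / (2 * S) := div_nonneg (by linarith) (by linarith)
      have hk1 : 2 * k * S ≤ ℓ x - S / 2 := by
        have h3 : (k : ℝ) ≤ (ℓ x - S / 2) / (2 * S) := by
          rw [hk]
          exact Nat.floor_le hpos
        rw [le_div_iff₀ (by linarith)] at h3
        linarith
      have hk2 : ℓ x - S / 2 < 2 * (k + 1) * S := by
        have h3 : (ℓ x - S / 2) / (2 * S) < (k : ℝ) + 1 := by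
          rw [hk]
          exact Nat.lt_floor_add_one _
        rw [div_lt_iff₀ (by linarith)] at h3
        linarith
      rcases lt_or_eq_of_le hk1 with h1 | h1
      · -- case B
        obtain ⟨x', hx'⟩ : ∃ x' : E, x' = x - S • e - (2 * k * S) • e := ⟨_, rfl⟩
        have hx'2 : x' = x - (2 * k * S) • e - S • e := by rw [hx']; abel
        have hlx' : ℓ x' = ℓ x - (2 * k + 1) * S := by
          rw [hx', hlsub, hlsub]
          ring
        have hin : |ℓ (x - S • e) - (2 * k * S + S / 2)| < S := by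
          rw [hlsub, abs_lt]
          constructor <;> linarith
        have hD : fderiv ℝ (fun y => Ψ y) x = fderiv ℝ (fun y => F₁ y) x' := by
          rw [hΨD, fd_slab (fun y => Φ₁ y) (fun y => F₁ y) ℓ (2 * k * S + S / 2) S
            ((2 * k * S) • e) (x - S • e) hin (hsl₁ k), hx']
        have hval : Ψ x = F₁ x' + (2 * k * S) • e + S • e := by
          rw [hΨa, hsl₁ k _ hin.le, hx']
        have hlF : -(S / 2) < ℓ (F₁ x') := by
          by_cases hc : S - 1 ≤ |ℓ (F₁ x') - S / 2|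
          · have h2 := hid₁ _ hc
            have h3 := F₁.injective h2
            rw [h3, hlx']
            linarith
          · push Not at hc
            rw [abs_lt] at hc
            linarith
        have hBΨ : B (Ψ x) = B0 := by
          apply hBf
          rw [hval, map_add, map_add, map_smul, map_smul, he, le_abs]
          left
          simp only [smul_eq_mul, mul_one]
          have : (0 : ℝ) ≤ 2 * k * S := by positivity
          linarith
        intro u v
        rw [hBΨ, hD]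
        have h4 := hP₁ x' u v
        rw [h4]
        have h5 : Z x' + (B (x' - S • e) - B0) = W x := by
          by_cases h6 : ℓ x' ≤ S / 2
          · rw [hBf (x' - S • e) (by rw [hlsub, le_abs]; right; linarith),
              hV2 k x (by rw [abs_le]; constructor <;> linarith), hx'2]
            abel
          · push Not at h6
            have hk3 : ((k + 1 : ℕ) : ℝ) = (k : ℝ) + 1 := by push_cast; ring
            rw [hZf x' (by rw [le_abs]; left; linarith),
              hV1 (k + 1) x (by rw [abs_le, hk3]; constructor <;> linarith)]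
            have h7 : x' - S • e = x - (2 * ((k + 1 : ℕ) : ℝ) * S) • e := by
              rw [hx', hk3, sub_sub, sub_sub, ← add_smul, ← add_smul]
              congr 2
              ring
            rw [h7]
            abel
        rw [← h5]
      · -- case C
        have hk0 : k ≠ 0 := by
          intro h2
          rw [h2] at h1
          push_cast at h1
          linarith
        obtain ⟨k', rfl⟩ : ∃ k', k = k' + 1 := ⟨k - 1, by omega⟩
        have hk3 : ((k' + 1 : ℕ) : ℝ) = (k' : ℝ) + 1 := by push_cast; ring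
        rw [hk3] at h1
        apply hid x
        · have h2 := id_bdry (fun y => Φ₁ y) (fun y => F₁ y) ℓ e S hS2 he hid₁ hsl₁ k' (x - S • e)
            (by rw [hlsub]; linarith)
          have h3 : Tendsto (fun y : E => y - S • e) (𝓝 x) (𝓝 (x - S • e)) :=
            (continuous_id.sub continuous_const).tendsto x
          filter_upwards [h3.eventually h2] with y hy
          rw [hΨa]
          have hy' : Φ₁ (y - S • e) = y - S • e := hy
          rw [hy']
          abel
        · rw [hV1 (k' + 1) x (by rw [abs_le, hk3]; constructor <;> linarith), hBf x, hBf]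
          · rw [hlsub, hk3, le_abs]
            left
            linarith
          · rw [le_abs]
            left
            have : (0 : ℝ) ≤ 2 * k' * S := by positivity
            linarith
  have hWB : Iso univ W B := ⟨Ψ, hsmΨ, fun x hx => absurd (mem_univ x) hx, hPΨ⟩
  have := htrans univ univ B W (fun _ => B0) (hsymm univ W B hWB) hIW
  rwa [univ_union] at this

end Pool.Agent.Helper48.SZ
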